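import Pool.Agent.Y979.HM.Stm

/-!
# Project HM: measurability for the space of configurations
-/

set_option autoImplicit false

open MeasureTheory UpperHalfPlane Filter Pool.Agent.Y979.HV Pool.Agent.Y979.HM
open scoped ENNReal Topology

namespace Pool.Agent.Y302.HM

theorem measurable_enat {α : Type*} [MeasurableSpace α] (g : α → ℕ∞)
    (h : ∀ k : ℕ, MeasurableSet {a | (k : ℕ∞) ≤ g a}) : Measurable g := by
  refine measurable_to_countable' fun c => ?_
  induction c using ENat.recTopCoe with
  | top =>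
    have : g ⁻¹' {⊤} = ⋂ k : ℕ, {a | (k : ℕ∞) ≤ g a} := by
      ext a
      simp only [Set.mem_preimage, Set.mem_singleton_iff, Set.mem_iInter, Set.mem_ofPred_eq]
      constructor
      · intro h k; rw [h]; exact le_top
      · intro h
        rw [ENat.eq_top_iff_forall_ge]
        exact h
    rw [this]
    exact MeasurableSet.iInter h
  | coe k =>
    have : g ⁻¹' {(k : ℕ∞)} = {a | (k : ℕ∞) ≤ g a} \ {a | ((k + 1 : ℕ) : ℕ∞) ≤ g a} := by
      ext a
      simp only [Set.mem_preimage, Set.mem_singleton_iff, Set.mem_sdiff, Set.mem_ofPred_eq, not_le]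
      constructor
      · intro h; rw [h]
        refine ⟨le_rfl, ?_⟩
        exact_mod_cast Nat.lt_succ_self k
      · rintro ⟨h1, h2⟩
        refine le_antisymm ?_ h1
        rw [Nat.cast_add, Nat.cast_one] at h2
        exact Order.le_of_lt_add_one h2
    rw [this]
    exact (h k).diff (h (k + 1))

/-- the counts are measurable -/
theorem meas_count {Z B : Set ℍ} (hB : MeasurableSet B) (hBZ : B ⊆ Z) :
    Measurable[cs Z] (fun A : Conf => (pts A ∩ B).encard) := by
  rw [measurable_iff_comap_le]
  exact le_iSup₂_of_le (f := fun (B : Set ℍ) (_ : MeasurableSet B ∧ B ⊆ Z) =>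
    MeasurableSpace.comap (fun A : Conf => (pts A ∩ B).encard) inferInstance) B ⟨hB, hBZ⟩ le_rfl

theorem meas_count' {B : Set ℍ} (hB : MeasurableSet B) :
    Measurable (fun A : Conf => (pts A ∩ B).encard) :=
  meas_count hB (Set.subset_univ B)

/-- a map to the space of configurations is measurable if the counts are -/
theorem meas_to {α : Type*} [MeasurableSpace α] {Z : Set ℍ} (T : α → Conf)
    (h : ∀ B : Set ℍ, MeasurableSet B → B ⊆ Z → Measurable (fun a => (pts (T a) ∩ B).encard)) :
    @Measurable α Conf _ (cs Z) T := by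
  rw [measurable_iff_comap_le, cs, MeasurableSpace.comap_iSup]
  refine iSup_le fun B => ?_
  rw [MeasurableSpace.comap_iSup]
  refine iSup_le fun hB => ?_
  rw [MeasurableSpace.comap_comp]
  exact measurable_iff_comap_le.1 (h B hB.1 hB.2)

theorem cs_mono {Z Z' : Set ℍ} (h : Z ⊆ Z') : cs Z ≤ cs Z' := by
  refine iSup₂_le fun B hB => ?_
  exact measurable_iff_comap_le.1 (meas_count hB.1 (hB.2.trans h))

/-- a count is the supremum of the counts in an exhaustion -/
theorem le_encard_iff {A B : Set ℍ} {K : ℕ → Set ℍ} (hK : Monotone K) (hKu : ⋃ n, K n = Set.univ)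
    (k : ℕ) : (k : ℕ∞) ≤ (A ∩ B).encard ↔ ∃ n, (k : ℕ∞) ≤ (A ∩ (B ∩ K n)).encard := by
  constructor
  · intro h
    obtain ⟨t, ht, htk⟩ := Set.exists_subset_encard_eq h
    have hfin : t.Finite := by
      rw [← Set.encard_lt_top_iff, htk]
      exact ENat.natCast_lt_top k
    have : ∃ n, t ⊆ K n := by
      have h1 : ∀ x ∈ t, ∃ n, x ∈ K n := by
        intro x _
        have : x ∈ ⋃ n, K n := by rw [hKu]; trivial
        exact Set.mem_iUnion.1 this
      choose! N hN using h1
      obtain ⟨M, hM⟩ := (hfin.image N).bddAbove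
      refine ⟨M, fun x hx => hK (hM ⟨x, hx, rfl⟩) (hN x hx)⟩
    obtain ⟨n, hn⟩ := this
    refine ⟨n, ?_⟩
    rw [← htk]
    exact Set.encard_le_encard fun x hx => ⟨(ht hx).1, (ht hx).2, hn hx⟩
  · rintro ⟨n, hn⟩
    exact hn.trans (Set.encard_le_encard fun x hx => ⟨hx.1, hx.2.1⟩)

theorem image_inter_encard {f : ℍ → ℍ} (hf : Function.Injective f) (A B : Set ℍ) :
    (f '' A ∩ B).encard = (A ∩ f ⁻¹' B).encard := by
  rw [← Set.image_inter_preimage, hf.encard_image]

theorem meas_image {f : ℍ → ℍ} (hf : Function.Injective f) (hfm : Measurable f) {Z : Set ℍ} :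
    @Measurable Conf Conf (cs (f ⁻¹' Z)) (cs Z) (fun A => mk (f '' pts A)) := by
  refine @meas_to Conf (cs (f ⁻¹' Z)) Z _ fun B hB hBZ => ?_
  have : (fun a : Conf => (pts (mk (f '' pts a)) ∩ B).encard) =
      fun a : Conf => (pts a ∩ f ⁻¹' B).encard := by
    funext a
    exact image_inter_encard hf (pts a) B
  rw [this]
  exact meas_count (hfm hB) (Set.preimage_mono hBZ)

end Pool.Agent.Y302.HM
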