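import Pool.Agent.Y979.HM.Stm

/-!
# Project HM: simple random walk and the exit from a finite set
-/

set_option autoImplicit false

open MeasureTheory Filter
open scoped ENNReal Topology

namespace Pool.Agent.Y302.HM

open Pool.Agent.Y979.HM

noncomputable section

variable {V Ω' : Type}

/-- the transition probabilities -/
def q (G : SimpleGraph V) (v y : V) : ℝ≥0∞ :=
  open Classical in if G.Adj v y then (((G.neighborSet v).encard : ℕ∞) : ℝ≥0∞)⁻¹ else 0

/-- the transition operator -/
def Q (G : SimpleGraph V) (g : V → ℝ≥0∞) (v : V) : ℝ≥0∞ := ∑' y, q G v y * g y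

theorem step [MeasurableSpace Ω'] {P' : Measure Ω'} {G : SimpleGraph V} {x : V} {X : ℕ → Ω' → V}
    (hX : IsSRW P' G x X) (n : ℕ) (v : ℕ → V) (y : V) :
    P' {ω | (∀ i ≤ n, X i ω = v i) ∧ X (n + 1) ω = y} =
      P' {ω | ∀ i ≤ n, X i ω = v i} * q G (v n) y := by
  classical
  have e1 : {ω | (∀ i ≤ n, X i ω = v i) ∧ X (n + 1) ω = y} =
      {ω | ∀ i ≤ n + 1, X i ω = Function.update v (n + 1) y i} := by
    ext ω
    simp only [Set.mem_ofPred_eq]
    constructor
    · rintro ⟨h1, h2⟩ i hi
      rcases Nat.lt_or_ge n i with h | h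
      · have : i = n + 1 := by omega
        subst this
        simp [h2]
      · rw [Function.update_of_ne (by omega)]
        exact h1 i h
    · intro h
      refine ⟨fun i hi => ?_, ?_⟩
      · have := h i (by omega)
        rwa [Function.update_of_ne (by omega)] at this
      · have := h (n + 1) le_rfl
        simpa using this
  rw [e1, hX.law, hX.law]
  have hcond : (Function.update v (n + 1) y 0 = x ∧ ∀ i < n + 1,
      G.Adj (Function.update v (n + 1) y i) (Function.update v (n + 1) y (i + 1))) ↔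
      ((v 0 = x ∧ ∀ i < n, G.Adj (v i) (v (i + 1))) ∧ G.Adj (v n) y) := by
    rw [Function.update_of_ne (by omega)]
    constructor
    · rintro ⟨h0, h1⟩
      refine ⟨⟨h0, fun i hi => ?_⟩, ?_⟩
      · have := h1 i (by omega)
        rwa [Function.update_of_ne (by omega), Function.update_of_ne (by omega)] at this
      · have := h1 n (by omega)
        rwa [Function.update_of_ne (by omega), Function.update_self] at this
    · rintro ⟨⟨h0, h1⟩, h2⟩
      refine ⟨h0, fun i hi => ?_⟩
      rcases Nat.lt_or_ge i n with h | h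
      · rw [Function.update_of_ne (by omega), Function.update_of_ne (by omega)]
        exact h1 i h
      · have : i = n := by omega
        subst this
        rw [Function.update_of_ne (by omega), Function.update_self]
        exact h2
  by_cases h1 : (v 0 = x ∧ ∀ i < n, G.Adj (v i) (v (i + 1)))
  · by_cases h2 : G.Adj (v n) y
    · rw [if_pos (hcond.2 ⟨h1, h2⟩), if_pos h1, q, if_pos h2, Finset.prod_range_succ]
      congr 1
      · refine Finset.prod_congr rfl fun i hi => ?_
        rw [Finset.mem_range] at hi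
        rw [Function.update_of_ne (by omega)]
      · rw [Function.update_of_ne (by omega)]
    · rw [if_neg (fun h => h2 (hcond.1 h).2), q, if_neg h2, mul_zero]
  · rw [if_neg (fun h => h1 (hcond.1 h).1), if_neg h1, zero_mul]

theorem meas_X [Countable V] [MeasurableSpace Ω'] {P' : Measure Ω'} {G : SimpleGraph V} {x : V}
    {X : ℕ → Ω' → V} (hX : IsSRW P' G x X) (n : ℕ) (S : Set V) :
    MeasurableSet {ω | X n ω ∈ S} := by
  have : {ω | X n ω ∈ S} = ⋃ v ∈ S, {ω | X n ω = v} := by
    ext ω; simp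
  rw [this]
  exact MeasurableSet.biUnion (Set.to_countable S) fun v _ => hX.measurable_eq n v

theorem markov [Countable V] [MeasurableSpace Ω'] {P' : Measure Ω'} {G : SimpleGraph V} {x : V}
    {X : ℕ → Ω' → V} (hX : IsSRW P' G x X) (n : ℕ) (A : Set Ω')
    (hA : ∀ ω ω', (∀ i ≤ n, X i ω = X i ω') → ω ∈ A → ω' ∈ A) (g : V → ℝ≥0∞) :
    ∫⁻ ω in A, g (X (n + 1) ω) ∂P' = ∫⁻ ω in A, Q G g (X n ω) ∂P' := by
  classical
  let _ : MeasurableSpace V := ⊤
  have _ : DiscreteMeasurableSpace V := ⟨fun _ => trivial⟩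
  have hXm : ∀ n, Measurable (X n) := fun n => by
    intro S _
    exact meas_X hX n S
  set Pa : Ω' → (Fin (n + 1) → V) := fun ω i => X i ω with hPa
  have hPam : Measurable Pa := measurable_pi_iff.2 fun i => hXm i
  set T : Set (Fin (n + 1) → V) := Pa '' A with hT
  have hAT : A = Pa ⁻¹' T := by
    ext ω
    constructor
    · intro h
      exact ⟨ω, h, rfl⟩
    · rintro ⟨ω', h1, h2⟩
      refine hA ω' ω (fun i hi => ?_) h1
      exact congrFun h2 ⟨i, by omega⟩
  have hTm : MeasurableSet T := DiscreteMeasurableSpace.forall_measurableSet T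
  have hAm : MeasurableSet A := by
    rw [hAT]; exact hPam hTm
  -- the one step formula for the path
  have hst : ∀ (p : Fin (n + 1) → V) (y : V),
      P' {ω | Pa ω = p ∧ X (n + 1) ω = y} = P' {ω | Pa ω = p} * q G (p (Fin.last n)) y := by
    intro p y
    set v : ℕ → V := fun i => if h : i < n + 1 then p ⟨i, h⟩ else x with hv
    have e : ∀ ω, Pa ω = p ↔ ∀ i ≤ n, X i ω = v i := by
      intro ω
      constructor
      · intro h i hi
        have := congrFun h ⟨i, by omega⟩
        simp only [hPa] at this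
        rw [this, hv]
        simp only
        rw [dif_pos (by omega)]
      · intro h
        funext i
        have := h i (by omega)
        simp only [hPa]
        rw [this, hv]
        simp only
        rw [dif_pos (by omega)]
    have e1 : {ω | Pa ω = p ∧ X (n + 1) ω = y} = {ω | (∀ i ≤ n, X i ω = v i) ∧ X (n + 1) ω = y} := by
      ext ω; simp only [Set.mem_ofPred_eq, e]
    have e2 : {ω | Pa ω = p} = {ω | ∀ i ≤ n, X i ω = v i} := by
      ext ω; simp only [Set.mem_ofPred_eq, e]
    have e3 : v n = p (Fin.last n) := by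
      rw [hv]; simp only
      rw [dif_pos (by omega)]; rfl
    rw [e1, e2, step hX n v y, e3]
  set h : (Fin (n + 1) → V) → ℝ≥0∞ := T.indicator 1 with hh
  have hleft : ∫⁻ ω in A, g (X (n + 1) ω) ∂P' =
      ∑' z : (Fin (n + 1) → V) × V, (h z.1 * g z.2) * P' {ω | Pa ω = z.1 ∧ X (n + 1) ω = z.2} := by
    rw [← lintegral_indicator hAm]
    have e1 : ∀ ω, A.indicator (fun ω => g (X (n + 1) ω)) ω = h (Pa ω) * g (X (n + 1) ω) := by
      intro ω
      by_cases hω : ω ∈ A
      · have : Pa ω ∈ T := ⟨ω, hω, rfl⟩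
        rw [Set.indicator_of_mem hω, hh, Set.indicator_of_mem this, Pi.one_apply, one_mul]
      · have : Pa ω ∉ T := fun hc => hω (by rw [hAT]; exact hc)
        rw [Set.indicator_of_notMem hω, hh, Set.indicator_of_notMem this, zero_mul]
    rw [lintegral_congr e1]
    have hfm : Measurable (fun ω => (Pa ω, X (n + 1) ω)) := hPam.prodMk (hXm (n + 1))
    have e2 := lintegral_map (μ := P') (f := fun z : (Fin (n + 1) → V) × V => h z.1 * g z.2)
      (g := fun ω => (Pa ω, X (n + 1) ω)) (Measurable.of_discrete) hfm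
    rw [← e2, lintegral_countable']
    refine tsum_congr fun z => ?_
    rw [Measure.map_apply hfm (measurableSet_singleton z)]
    congr 2
    ext ω
    simp [Prod.ext_iff]
  have hright : ∫⁻ ω in A, Q G g (X n ω) ∂P' =
      ∑' p : Fin (n + 1) → V, (h p * Q G g (p (Fin.last n))) * P' {ω | Pa ω = p} := by
    rw [← lintegral_indicator hAm]
    have e1 : ∀ ω, A.indicator (fun ω => Q G g (X n ω)) ω =
        h (Pa ω) * Q G g (Pa ω (Fin.last n)) := by
      intro ω
      have e0 : Pa ω (Fin.last n) = X n ω := rfl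
      by_cases hω : ω ∈ A
      · have : Pa ω ∈ T := ⟨ω, hω, rfl⟩
        rw [Set.indicator_of_mem hω, hh, Set.indicator_of_mem this, Pi.one_apply, one_mul, e0]
      · have : Pa ω ∉ T := fun hc => hω (by rw [hAT]; exact hc)
        rw [Set.indicator_of_notMem hω, hh, Set.indicator_of_notMem this, zero_mul]
    rw [lintegral_congr e1]
    have e2 := lintegral_map (μ := P')
      (f := fun p : (Fin (n + 1) → V) => h p * Q G g (p (Fin.last n)))
      (g := Pa) (Measurable.of_discrete) hPam
    rw [← e2, lintegral_countable']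
    refine tsum_congr fun p => ?_
    rw [Measure.map_apply hPam (measurableSet_singleton p)]
    congr 2
  rw [hleft, hright, ENNReal.tsum_prod (f := fun p y => h p * g y * P' {ω | Pa ω = p ∧ X (n + 1) ω = y})]
  refine tsum_congr fun p => ?_
  rw [Q, ← ENNReal.tsum_mul_left, ← ENNReal.tsum_mul_right]
  refine tsum_congr fun y => ?_
  rw [hst p y]
  ring

theorem Q_ofReal {G : SimpleGraph V} (hG : LF G) (w : V → ℝ) (hw : ∀ v, 0 ≤ w v) (v : V) :
    Q G (fun y => ENNReal.ofReal (w y)) v =
      ENNReal.ofReal ((∑ z ∈ (hG v).toFinset, w z) / deg G v) := by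
  classical
  rw [Q]
  have hc : ((G.neighborSet v).encard : ℕ∞) = (((hG v).toFinset.card : ℕ) : ℕ∞) := by
    rw [← Set.encard_coe_eq_coe_finsetCard, Set.Finite.coe_toFinset]
  have hd : deg G v = (((hG v).toFinset.card : ℕ) : ℝ) := by
    rw [deg, Set.ncard_eq_toFinset_card _ (hG v)]
  rw [tsum_eq_sum (s := (hG v).toFinset)]
  · have e1 : ∀ y ∈ (hG v).toFinset, q G v y * ENNReal.ofReal (w y) =
        ((((hG v).toFinset.card : ℕ) : ℝ≥0∞))⁻¹ * ENNReal.ofReal (w y) := by
      intro y hy
      have hy' : G.Adj v y := by simpa using hy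
      rw [q, if_pos hy', hc]
      simp
    rw [Finset.sum_congr rfl e1, ← Finset.mul_sum, ← ENNReal.ofReal_sum_of_nonneg
      (fun i _ => hw i), hd]
    by_cases h0 : (hG v).toFinset.card = 0
    · rw [Finset.card_eq_zero] at h0
      rw [h0]; simp
    · rw [ENNReal.ofReal_div_of_pos (by positivity), ENNReal.ofReal_natCast,
        ENNReal.div_eq_inv_mul]
  · intro y hy
    have hy' : ¬ G.Adj v y := by simpa using hy
    rw [q, if_neg hy', zero_mul]

theorem lap_eq {G : SimpleGraph V} (hG : LF G) (w : V → ℝ) (v : V) :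
    lap G w v = deg G v * w v - ∑ z ∈ (hG v).toFinset, w z := by
  rw [lap, finsum_mem_eq_finite_toFinset_sum _ (hG v), Finset.sum_sub_distrib, deg,
    Set.ncard_eq_toFinset_card _ (hG v)]
  simp

/-- no visit to `x` and no exit after the visit at time `j` -/
def Aev (X : ℕ → Ω' → V) (W : Finset V) (x : V) (j m : ℕ) : Set Ω' :=
  {ω | X j ω = x ∧ ∀ l, j < l → l ≤ m → X l ω ∈ W ∧ X l ω ≠ x}

theorem meas_Aev [Countable V] [MeasurableSpace Ω'] {P' : Measure Ω'} {G : SimpleGraph V} {x : V}
    {X : ℕ → Ω' → V} (hX : IsSRW P' G x X) (W : Finset V) (j m : ℕ) :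
    MeasurableSet (Aev X W x j m) := by
  have : Aev X W x j m = {ω | X j ω = x} ∩
      ⋂ l : ℕ, ⋂ _ : j < l, ⋂ _ : l ≤ m, {ω | X l ω ∈ {v | v ∈ W ∧ v ≠ x}} := by
    ext ω; simp [Aev]
  rw [this]
  refine (hX.measurable_eq j x).inter (MeasurableSet.iInter fun l => MeasurableSet.iInter fun _ =>
    MeasurableSet.iInter fun _ => meas_X hX l _)

theorem biU [MeasurableSpace Ω'] {P' : Measure Ω'} (s : Finset ℕ) (t : ℕ → Set Ω')
    (f : Ω' → ℝ≥0∞) :
    ∫⁻ ω in ⋃ i ∈ s, t i, f ω ∂P' ≤ ∑ i ∈ s, ∫⁻ ω in t i, f ω ∂P' := by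
  classical
  induction s using Finset.induction_on with
  | empty => simp
  | insert a s ha ih =>
    rw [Finset.set_biUnion_insert, Finset.sum_insert ha]
    exact (lintegral_union_le f _ _).trans (by gcongr)

theorem exit : S_EXIT := by
  intro V Ω' _ _ P' _ G hG x X hX W hxW w hw hwx hlap k
  classical
  set g : V → ℝ≥0∞ := fun y => ENNReal.ofReal (w y) with hg
  set c : ℝ≥0∞ := ENNReal.ofReal (-lap G w x / deg G x) with hc
  have hQx : Q G g x = c := by
    rw [hg, Q_ofReal hG w hw x, hc, lap_eq hG w x, hwx]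
    congr 2
    ring
  have hQW : ∀ v ∈ W, v ≠ x → Q G g v ≤ g v := by
    intro v hv hvx
    rw [hg, Q_ofReal hG w hw v]
    apply ENNReal.ofReal_le_ofReal
    have h1 := hlap v hv hvx
    rw [lap_eq hG w v] at h1
    have h2 : (∑ z ∈ (hG v).toFinset, w z) = deg G v * w v := by linarith
    rw [h2]
    by_cases hd : deg G v = 0
    · rw [hd]; simpa using hw v
    · rw [mul_div_assoc, mul_comm, div_mul_cancel₀ _ hd]
  -- integrals
  set D : ℕ → ℕ → ℝ≥0∞ := fun j m => ∫⁻ ω in Aev X W x j m, g (X (m + 1) ω) ∂P' with hD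
  set e : ℕ → ℕ → ℝ≥0∞ := fun j m => ∫⁻ ω in Aev X W x j m ∩ {ω | X (m + 1) ω ∉ W},
    g (X (m + 1) ω) ∂P' with he
  have hsat : ∀ j m, j ≤ m → ∀ ω ω', (∀ i ≤ m, X i ω = X i ω') → ω ∈ Aev X W x j m →
      ω' ∈ Aev X W x j m := by
    rintro j m hjm ω ω' h ⟨h1, h2⟩
    refine ⟨by rw [← h j hjm]; exact h1, fun l hl1 hl2 => ?_⟩
    rw [← h l hl2]
    exact h2 l hl1 hl2
  have hDj : ∀ j, D j j ≤ c := by
    intro j
    rw [hD]
    simp only
    rw [markov hX j _ (hsat j j le_rfl) g]
    calc ∫⁻ ω in Aev X W x j j, Q G g (X j ω) ∂P'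
        = ∫⁻ ω in Aev X W x j j, c ∂P' := by
          refine setLIntegral_congr_fun (meas_Aev hX W j j) fun ω hω => ?_
          rw [hω.1, hQx]
      _ = c * P' (Aev X W x j j) := by rw [setLIntegral_const]
      _ ≤ c * 1 := by gcongr; exact prob_le_one
      _ = c := mul_one c
  have hDe : ∀ j m, j ≤ m → e j m + D j (m + 1) ≤ D j m := by
    intro j m hjm
    have h1 : D j (m + 1) ≤ ∫⁻ ω in Aev X W x j (m + 1), g (X (m + 1) ω) ∂P' := by
      rw [hD]
      simp only
      rw [markov hX (m + 1) _ (hsat j (m + 1) (by omega)) g]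
      refine setLIntegral_mono' (meas_Aev hX W j (m + 1)) fun ω hω => ?_
      have := hω.2 (m + 1) (by omega) le_rfl
      exact hQW _ this.1 this.2
    calc e j m + D j (m + 1)
        ≤ e j m + ∫⁻ ω in Aev X W x j (m + 1), g (X (m + 1) ω) ∂P' := by gcongr
      _ = ∫⁻ ω in (Aev X W x j m ∩ {ω | X (m + 1) ω ∉ W}) ∪ Aev X W x j (m + 1),
            g (X (m + 1) ω) ∂P' := by
          rw [lintegral_union (meas_Aev hX W j (m + 1))]
          rw [Set.disjoint_left]
          rintro ω ⟨_, h2⟩ h3
          exact h2 (h3.2 (m + 1) (by omega) le_rfl).1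
      _ ≤ ∫⁻ ω in Aev X W x j m, g (X (m + 1) ω) ∂P' := by
          refine lintegral_mono_set ?_
          rintro ω (h | h)
          · exact h.1
          · exact ⟨h.1, fun l h1 h2 => h.2 l h1 (by omega)⟩
      _ = D j m := rfl
  have hsum : ∀ j M, ∑ i ∈ Finset.range M, e j (j + i) + D j (j + M) ≤ c := by
    intro j M
    induction M with
    | zero => simpa using hDj j
    | succ M ih =>
      rw [Finset.sum_range_succ, add_assoc]
      refine le_trans ?_ ih
      gcongr
      exact hDe j (j + M) (by omega)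
  set f : ℕ → ℕ → ℝ≥0∞ := fun j m => if j ≤ m then e j m else 0 with hf
  have htsum : ∀ j, ∑' m, f j m ≤ c := by
    intro j
    refine ENNReal.tsum_le_of_sum_range_le fun M => ?_
    calc ∑ m ∈ Finset.range M, f j m ≤ ∑ m ∈ Finset.range (j + M), f j m :=
          Finset.sum_le_sum_of_subset (Finset.range_mono (by omega))
      _ = ∑ m ∈ Finset.range j, f j m + ∑ i ∈ Finset.range M, f j (j + i) :=
          Finset.sum_range_add _ _ _
      _ = 0 + ∑ i ∈ Finset.range M, e j (j + i) := by
          congr 1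
          · refine Finset.sum_eq_zero fun m hm => ?_
            rw [Finset.mem_range] at hm
            rw [hf]; simp only
            rw [if_neg (by omega)]
          · refine Finset.sum_congr rfl fun i _ => ?_
            rw [hf]; simp only
            rw [if_pos (by omega)]
      _ ≤ c := by
          rw [zero_add]
          exact le_trans le_self_add (hsum j M)
  -- the starting point
  have hstart : P' {ω | X 0 ω = x} = 1 := by
    have := hX.law 0 (fun _ => x)
    simpa using this
  have hae : ∀ᵐ ω ∂P', X 0 ω = x := by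
    have hm : MeasurableSet {ω | X 0 ω = x} := hX.measurable_eq 0 x
    rw [ae_iff]
    have := prob_compl_eq_zero_iff (μ := P') hm
    exact this.2 hstart
  set E : ℕ → Set Ω' := fun n =>
    {ω | X n ω ∉ W ∧ (∀ i < n, X i ω ∈ W) ∧ ∀ i, k < i → i < n → X i ω ≠ x} with hE
  have hE0 : ∫⁻ ω in E 0, g (X 0 ω) ∂P' = 0 := by
    have : P' (E 0) = 0 := by
      refine measure_mono_null ?_ (ae_iff.1 hae)
      intro ω hω hx
      exact hω.1 (by rw [hx]; exact hxW)
    exact setLIntegral_measure_zero _ _ this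
  have hEs : ∀ m, ∫⁻ ω in E (m + 1), g (X (m + 1) ω) ∂P' ≤ ∑ j ∈ Finset.range (k + 1), f j m := by
    intro m
    have hsub : E (m + 1) ≤ᵐ[P'] ⋃ j ∈ (Finset.range (k + 1)).filter (fun j => j ≤ m),
        (Aev X W x j m ∩ {ω | X (m + 1) ω ∉ W}) := by
      filter_upwards [hae] with ω hω0 hω
      obtain ⟨h1, h2, h3⟩ := hω
      -- last visit
      set S := (Finset.range (m + 1)).filter (fun i => X i ω = x) with hS
      have hne : S.Nonempty := ⟨0, by simp [hS, hω0]⟩
      set j := S.max' hne with hj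
      have hjS : j ∈ S := Finset.max'_mem S hne
      rw [hS, Finset.mem_filter, Finset.mem_range] at hjS
      have hjk : j ≤ k := by
        by_contra hcon
        exact h3 j (by omega) hjS.1 hjS.2
      have hmem : ω ∈ ⋃ j ∈ (Finset.range (k + 1)).filter (fun j => j ≤ m),
          (Aev X W x j m ∩ {ω | X (m + 1) ω ∉ W}) := by
        simp only [Set.mem_iUnion]
        refine ⟨j, ?_, ⟨hjS.2, fun l hl1 hl2 => ⟨h2 l (by omega), fun hlx => ?_⟩⟩, h1⟩
        · rw [Finset.mem_filter, Finset.mem_range]; omega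
        · have : l ≤ j := Finset.le_max' S l (by
            rw [hS, Finset.mem_filter, Finset.mem_range]; exact ⟨by omega, hlx⟩)
          omega
      exact hmem
    calc ∫⁻ ω in E (m + 1), g (X (m + 1) ω) ∂P'
        ≤ ∫⁻ ω in ⋃ j ∈ (Finset.range (k + 1)).filter (fun j => j ≤ m),
            (Aev X W x j m ∩ {ω | X (m + 1) ω ∉ W}), g (X (m + 1) ω) ∂P' :=
          lintegral_mono' (Measure.restrict_mono_ae hsub) le_rfl
      _ ≤ ∑ j ∈ (Finset.range (k + 1)).filter (fun j => j ≤ m), e j m := by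
          exact biU ((Finset.range (k + 1)).filter (fun j => j ≤ m))
            (fun j => Aev X W x j m ∩ {ω | X (m + 1) ω ∉ W}) (fun ω => g (X (m + 1) ω))
      _ = ∑ j ∈ Finset.range (k + 1), f j m := by
          rw [Finset.sum_filter]
  calc ∑' n : ℕ, ∫⁻ ω in E n, g (X n ω) ∂P'
      = ∫⁻ ω in E 0, g (X 0 ω) ∂P' + ∑' m : ℕ, ∫⁻ ω in E (m + 1), g (X (m + 1) ω) ∂P' :=
        tsum_eq_zero_add' ENNReal.summable
    _ = ∑' m : ℕ, ∫⁻ ω in E (m + 1), g (X (m + 1) ω) ∂P' := by rw [hE0, zero_add]
    _ ≤ ∑' m : ℕ, ∑ j ∈ Finset.range (k + 1), f j m := ENNReal.tsum_le_tsum hEs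
    _ = ∑ j ∈ Finset.range (k + 1), ∑' m, f j m :=
        Summable.tsum_finsetSum fun _ _ => ENNReal.summable
    _ ≤ ∑ j ∈ Finset.range (k + 1), c := Finset.sum_le_sum fun j _ => htsum j
    _ = (k + 1) * c := by
        rw [Finset.sum_const, Finset.card_range, nsmul_eq_mul]
        push_cast
        rfl

end

end Pool.Agent.Y302.HM
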