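import Pool.Agent.Y302.HM.Conf

/-!
# Project HM: measurability of the energy
-/

set_option autoImplicit false

open MeasureTheory UpperHalfPlane Filter Pool.Agent.Y979.HV Pool.Agent.Y979.HM
open scoped ENNReal Topology

namespace Pool.Agent.Y302.HM

universe u

theorem countable_of_locFin {A : Set ℍ} (hA : LocFin A) : A.Countable := by
  have : A = ⋃ n : ℕ, (A ∩ Metric.closedBall I (n : ℝ)) := by
    rw [← Set.inter_iUnion]
    ext z
    obtain ⟨n, hn⟩ := exists_nat_ge (dist z I)
    constructor
    · intro h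
      exact ⟨h, Set.mem_iUnion.2 ⟨n, Metric.mem_closedBall.2 hn⟩⟩
    · intro h
      exact h.1
  rw [this]
  exact Set.countable_iUnion fun n => (hA I n).countable

noncomputable section

/-- the integrand of the energy -/
def gg (A : Set ℍ) (f : ℍ → ℝ) (x y : ℍ) : ℝ≥0∞ :=
  open Classical in if badj A x y then ENNReal.ofReal ((f x - f y) ^ 2) else 0

theorem En_eq {A : Set ℍ} (hA : A.Countable)
    (hadj : ∀ x y : A, (voronoiGraph A).Adj x y ↔ badj A x y) (f : ℍ → ℝ) :
    En (voronoiGraph A) (fun x => f x) =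
      ∫⁻ x in A, ∫⁻ y in A, gg A f x y ∂Measure.count ∂Measure.count := by
  rw [lintegral_countable _ hA]
  rw [En, ENNReal.tsum_prod (f := fun a b : A => open Classical in
    if (voronoiGraph A).Adj a b then ENNReal.ofReal ((f a - f b) ^ 2) else 0)]
  refine tsum_congr fun x => ?_
  rw [Measure.count_singleton, mul_one, lintegral_countable _ hA]
  refine tsum_congr fun y => ?_
  rw [Measure.count_singleton, mul_one, gg]
  by_cases h : (voronoiGraph A).Adj x y
  · rw [if_pos h, if_pos ((hadj x y).1 h)]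
  · rw [if_neg h, if_neg fun h' => h ((hadj x y).2 h')]

theorem meas_gg {α : Type u} [MeasurableSpace α] (T : α → Conf) (hT : Measurable T)
    (F : α → ℍ → ℝ) (hF : Measurable (fun p : α × ℍ => F p.1 p.2)) :
    Measurable (fun p : (α × ℍ) × ℍ => gg (pts (T p.1.1)) (F p.1.1) p.1.2 p.2) := by
  classical
  have hS : MeasurableSet {p : (α × ℍ) × ℍ | badj (pts (T p.1.1)) p.1.2 p.2} := by
    have : {p : (α × ℍ) × ℍ | badj (pts (T p.1.1)) p.1.2 p.2} =
        {p : (α × ℍ) × ℍ | p.1.2 = p.2}ᶜ ∩ ⋃ q : ℕ × ℕ × ℕ,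
          ((fun p : (α × ℍ) × ℍ => p.1.2) ⁻¹' RB q ∩ ((fun p : (α × ℍ) × ℍ => p.2) ⁻¹' RB q ∩
            (fun p : (α × ℍ) × ℍ => (pts (T p.1.1) ∩ RB q).encard) ⁻¹' {2})) := by
      ext p
      simp only [badj, Set.mem_ofPred_eq, Set.mem_inter_iff, Set.mem_compl_iff, Set.mem_iUnion,
        Set.mem_preimage, Set.mem_singleton_iff, ne_eq]
    rw [this]
    have h1 : Measurable (fun p : (α × ℍ) × ℍ => p.1.2) := measurable_snd.comp measurable_fst
    have h2 : Measurable (fun p : (α × ℍ) × ℍ => p.2) := measurable_snd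
    refine (measurableSet_eq_fun h1 h2).compl.inter (MeasurableSet.iUnion fun q => ?_)
    have hq : MeasurableSet (RB q) := Metric.isOpen_ball.measurableSet
    refine (h1 hq).inter ((h2 hq).inter ?_)
    have h3 : Measurable (fun p : (α × ℍ) × ℍ => (pts (T p.1.1) ∩ RB q).encard) :=
      (meas_count' hq).comp (hT.comp (measurable_fst.comp measurable_fst))
    exact h3 (measurableSet_singleton 2)
  have hval : Measurable (fun p : (α × ℍ) × ℍ =>
      ENNReal.ofReal ((F p.1.1 p.1.2 - F p.1.1 p.2) ^ 2)) := by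
    have h1 : Measurable (fun p : (α × ℍ) × ℍ => F p.1.1 p.1.2) := hF.comp measurable_fst
    have h2 : Measurable (fun p : (α × ℍ) × ℍ => F p.1.1 p.2) :=
      hF.comp ((measurable_fst.comp measurable_fst).prodMk measurable_snd)
    exact ((h1.sub h2).pow_const 2).ennreal_ofReal
  unfold gg
  exact Measurable.ite hS hval measurable_const

/-- the counting kernel -/
def kap {α : Type u} [MeasurableSpace α] (T : α → Conf) (hT : Measurable T)
    (hl : ∀ a, LocFin (pts (T a))) : ProbabilityTheory.Kernel α ℍ where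
  toFun a := Measure.count.restrict (pts (T a))
  measurable' := by
    refine Measure.measurable_of_measurable_coe _ fun B hB => ?_
    have : (fun a => (Measure.count.restrict (pts (T a)) : Measure ℍ) B) =
        fun a => ((pts (T a) ∩ B).encard : ℝ≥0∞) := by
      funext a
      have hm : MeasurableSet (pts (T a)) := (countable_of_locFin (hl a)).measurableSet
      rw [Measure.restrict_apply hB, Measure.count_apply (hB.inter hm), Set.inter_comm]
    rw [this]
    exact (Measurable.of_discrete (f := fun n : ℕ∞ => (n : ℝ≥0∞))).comp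
      ((meas_count' hB).comp hT)

theorem kap_apply {α : Type u} [MeasurableSpace α] (T : α → Conf) (hT : Measurable T)
    (hl : ∀ a, LocFin (pts (T a))) (a : α) :
    kap T hT hl a = Measure.count.restrict (pts (T a)) := rfl

instance {α : Type u} [MeasurableSpace α] (T : α → Conf) (hT : Measurable T)
    (hl : ∀ a, LocFin (pts (T a))) : ProbabilityTheory.IsSFiniteKernel (kap T hT hl) := by
  classical
  -- rings
  set K : ℕ → Set ℍ := fun n => Metric.closedBall I (n : ℝ) with hK
  set R : ℕ → Set ℍ := disjointed K with hR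
  have hKm : ∀ n, MeasurableSet (K n) := fun n => Metric.isClosed_closedBall.measurableSet
  have hRm : ∀ n, MeasurableSet (R n) := fun n => MeasurableSet.disjointed hKm n
  have hRK : ∀ n, R n ⊆ K n := fun n => disjointed_subset K n
  have hRu : ⋃ n, R n = Set.univ := by
    rw [hR, iUnion_disjointed, Set.eq_univ_iff_forall]
    intro z
    obtain ⟨n, hn⟩ := exists_nat_ge (dist z I)
    exact Set.mem_iUnion.2 ⟨n, Metric.mem_closedBall.2 hn⟩
  have hcm : ∀ n, Measurable (fun a => (pts (T a) ∩ K n).encard) := fun n =>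
    (meas_count' (hKm n)).comp hT
  have hset : ∀ p : ℕ × ℕ, MeasurableSet {a | (pts (T a) ∩ K p.1).encard = (p.2 : ℕ∞)} :=
    fun p => (hcm p.1) (measurableSet_singleton (p.2 : ℕ∞))
  -- pieces
  let κ : ℕ × ℕ → ProbabilityTheory.Kernel α ℍ := fun p =>
    ProbabilityTheory.Kernel.piecewise (hset p) ((kap T hT hl).restrict (hRm p.1)) 0
  have hκ1 : ∀ p a, (pts (T a) ∩ K p.1).encard = (p.2 : ℕ∞) →
      κ p a = (kap T hT hl).restrict (hRm p.1) a := by
    intro p a ha
    show ProbabilityTheory.Kernel.piecewise (hset p) ((kap T hT hl).restrict (hRm p.1)) 0 a = _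
    rw [ProbabilityTheory.Kernel.piecewise_apply]
    exact if_pos ha
  have hκ2 : ∀ p a, ¬ (pts (T a) ∩ K p.1).encard = (p.2 : ℕ∞) →
      κ p a = (0 : ProbabilityTheory.Kernel α ℍ) a := by
    intro p a ha
    show ProbabilityTheory.Kernel.piecewise (hset p) ((kap T hT hl).restrict (hRm p.1)) 0 a = _
    rw [ProbabilityTheory.Kernel.piecewise_apply]
    exact if_neg ha
  have hκfin : ∀ p, ProbabilityTheory.IsFiniteKernel (κ p) := by
    intro p
    refine ⟨⟨(p.2 : ℝ≥0∞), ENNReal.natCast_lt_top p.2, fun a => ?_⟩⟩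
    by_cases ha : (pts (T a) ∩ K p.1).encard = (p.2 : ℕ∞)
    · rw [hκ1 p a ha, ProbabilityTheory.Kernel.restrict_apply, Measure.restrict_apply_univ, kap_apply]
      have hm : MeasurableSet (pts (T a)) := (countable_of_locFin (hl a)).measurableSet
      rw [Measure.restrict_apply (hRm p.1), Measure.count_apply ((hRm p.1).inter hm)]
      have : (R p.1 ∩ pts (T a)).encard ≤ (p.2 : ℕ∞) := by
        rw [← ha]
        exact Set.encard_le_encard fun x hx => ⟨hx.2, hRK p.1 hx.1⟩
      have h2 := ENat.toENNReal_le.2 this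
      simpa using h2
    · rw [hκ2 p a ha]
      simp
  have hsum : kap T hT hl = ProbabilityTheory.Kernel.sum κ := by
    ext a B hB
    rw [ProbabilityTheory.Kernel.sum_apply, Measure.sum_apply _ hB, ENNReal.tsum_prod
      (f := fun n m => κ (n, m) a B)]
    have h1 : ∀ n, ∑' m : ℕ, κ (n, m) a B = kap T hT hl a (B ∩ R n) := by
      intro n
      have hfin : (pts (T a) ∩ K n).Finite := hl a I n
      obtain ⟨m0, hm0⟩ := ENat.ne_top_iff_exists.1 (Set.encard_ne_top_iff.2 hfin)
      rw [tsum_eq_single m0]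
      · rw [hκ1 (n, m0) a hm0.symm, ProbabilityTheory.Kernel.restrict_apply,
          Measure.restrict_apply hB]
      · intro m hm
        rw [hκ2 (n, m) a]
        · simp
        · intro h
          apply hm
          have h' : ((m : ℕ) : ℕ∞) = (m0 : ℕ∞) := by
            rw [hm0]; exact h.symm
          exact_mod_cast h'
    simp_rw [h1]
    rw [← measure_iUnion]
    · rw [← Set.inter_iUnion, hRu, Set.inter_univ]
    · intro i j hij
      exact ((disjoint_disjointed K) hij).mono Set.inter_subset_right Set.inter_subset_right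
    · exact fun n => hB.inter (hRm n)
  rw [hsum]
  exact ProbabilityTheory.Kernel.isSFiniteKernel_sum (hκs := fun p => inferInstance)

theorem men (h1 : S_ADJ1) (h2 : S_ADJ2) : S_MEN.{u} := by
  intro α _ T hT hl F hF
  have e : (fun a => En (voronoiGraph (pts (T a))) (fun x => F a x)) =
      fun a => ∫⁻ x, ∫⁻ y, gg (pts (T a)) (F a) x y ∂(kap T hT hl a) ∂(kap T hT hl a) := by
    funext a
    exact En_eq (countable_of_locFin (hl a))
      (fun x y => ⟨h1 _ (hl a) x y, h2 _ (hl a) x y⟩) (F a)
  rw [e]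
  have hg := meas_gg T hT F hF
  have hk : Measurable (fun p : α × ℍ => ∫⁻ y, gg (pts (T p.1)) (F p.1) p.2 y
      ∂((kap T hT hl).comap Prod.fst measurable_fst p)) :=
    Measurable.lintegral_kernel_prod_right' (κ := (kap T hT hl).comap Prod.fst measurable_fst) hg
  exact Measurable.lintegral_kernel_prod_right' (κ := kap T hT hl) hk

end

end Pool.Agent.Y302.HM
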