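import Pool.Agent.Y302.HM.Conf
import Pool.Agent.Y979.HM.Basic

/-!
# Project HM: measurability of the infimum of the energy
-/

set_option autoImplicit false

open MeasureTheory UpperHalfPlane Filter Pool.Agent.Y979.HV Pool.Agent.Y979.HM
open scoped ENNReal Topology

namespace Pool.Agent.Y302.HM

universe u

noncomputable section

/-- a countable family of functions -/
def UU (l : List (ℚ × ℕ × ℕ × ℕ)) (z : ℍ) : ℝ :=
  (l.map fun q => (RB q.2).indicator (fun _ => (q.1 : ℝ)) z).sum

theorem UU_nil (z : ℍ) : UU [] z = 0 := rfl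

theorem UU_cons (q : ℚ × ℕ × ℕ × ℕ) (l : List (ℚ × ℕ × ℕ × ℕ)) (z : ℍ) :
    UU (q :: l) z = (RB q.2).indicator (fun _ => (q.1 : ℝ)) z + UU l z := by
  simp [UU]

theorem meas_UU (l : List (ℚ × ℕ × ℕ × ℕ)) : Measurable (UU l) := by
  induction l with
  | nil => exact measurable_const
  | cons q l ih =>
    have : UU (q :: l) = fun z => (RB q.2).indicator (fun _ => (q.1 : ℝ)) z + UU l z := by
      funext z; exact UU_cons q l z
    rw [this]
    exact (measurable_const.indicator Metric.isOpen_ball.measurableSet).add ih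

theorem RB_fin {A : Set ℍ} (hA : LocFin A) (q : ℕ × ℕ × ℕ) : {v : A | (v : ℍ) ∈ RB q}.Finite := by
  have h := (hA (TopologicalSpace.denseSeq ℍ q.1) ((q.2.1 : ℝ) / (q.2.2 + 1))).subset
    (Set.inter_subset_inter_right A (show RB q ⊆ _ from Metric.ball_subset_closedBall))
  refine Set.Finite.of_finite_image (f := Subtype.val) (h.subset ?_)
    Subtype.val_injective.injOn
  rintro _ ⟨v, hv, rfl⟩
  exact ⟨v.2, hv⟩

theorem UU_fin {A : Set ℍ} (hA : LocFin A) (l : List (ℚ × ℕ × ℕ × ℕ)) :
    {v : A | UU l v ≠ 0}.Finite := by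
  induction l with
  | nil =>
    have : {v : A | UU [] v ≠ 0} = ∅ := by
      ext v; simp [UU_nil]
    rw [this]; exact Set.finite_empty
  | cons q l ih =>
    refine ((RB_fin hA q.2).union ih).subset ?_
    intro v hv
    by_contra hcon
    rw [Set.mem_union, not_or] at hcon
    apply hv
    have h1 : (v : ℍ) ∉ RB q.2 := hcon.1
    have h2 : UU l v = 0 := by
      by_contra h; exact hcon.2 h
    rw [UU_cons, Set.indicator_of_notMem h1, h2, add_zero]

theorem isol {A : Set ℍ} (hA : LocFin A) (v : ℍ) :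
    ∃ k, v ∈ RB k ∧ ∀ u ∈ A, u ∈ RB k → u = v := by
  have hfin : ((A ∩ Metric.closedBall v 1) \ {v}).Finite := (hA v 1).subset Set.sdiff_subset
  have hopen : IsOpen ((A ∩ Metric.closedBall v 1) \ {v})ᶜ := hfin.isClosed.isOpen_compl
  obtain ⟨r, hr, hrs⟩ := Metric.isOpen_iff.1 hopen v (by simp)
  set s : ℝ := min r 1 with hs
  have hs0 : 0 < s := lt_min hr one_pos
  obtain ⟨n, hn⟩ := (TopologicalSpace.denseRange_denseSeq ℍ).exists_dist_lt v
    (show 0 < s / 4 by positivity)
  obtain ⟨b, hb⟩ := exists_nat_one_div_lt (show 0 < s / 4 by positivity)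
  set a : ℕ := ⌊s / 4 * (b + 1)⌋₊ + 1 with ha
  have hb1 : (0 : ℝ) < (b : ℝ) + 1 := by positivity
  have h1 : s / 4 < (a : ℝ) / (b + 1) := by
    rw [lt_div_iff₀ hb1, ha]
    push_cast
    exact Nat.lt_floor_add_one _
  have h2 : (a : ℝ) / (b + 1) < s / 2 := by
    have h3 : (⌊s / 4 * (b + 1)⌋₊ : ℝ) ≤ s / 4 * (b + 1) := Nat.floor_le (by positivity)
    rw [div_lt_iff₀ hb1, ha]
    push_cast
    rw [div_lt_iff₀ hb1] at hb
    nlinarith
  refine ⟨(n, a, b), ?_, fun u hu huk => ?_⟩
  · show dist v (TopologicalSpace.denseSeq ℍ n) < (a : ℝ) / (b + 1)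
    linarith
  · have huk' : dist u (TopologicalSpace.denseSeq ℍ n) < (a : ℝ) / (b + 1) := huk
    have h5 : dist u v < s := by
      calc dist u v ≤ dist u (TopologicalSpace.denseSeq ℍ n) +
            dist v (TopologicalSpace.denseSeq ℍ n) := dist_triangle_right _ _ _
        _ < s := by linarith
    by_contra hne
    have h6 : u ∈ ((A ∩ Metric.closedBall v 1) \ {v})ᶜ :=
      hrs (Metric.mem_ball.2 (lt_of_lt_of_le h5 (min_le_left _ _)))
    exact h6 ⟨⟨hu, Metric.mem_closedBall.2 (h5.le.trans (min_le_right _ _))⟩, hne⟩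

theorem perturb {V : Type*} {G : SimpleGraph V} (hG : LF G) {S : Set V} (hS : S.Finite)
    (w : V → ℝ) {ε : ℝ} (hε : 0 < ε) : ∃ δ : ℝ, 0 < δ ∧ ∀ w' : V → ℝ, (∀ v, v ∉ S → w' v = w v) →
      (∀ v, |w' v - w v| ≤ δ) → En G w' ≤ En G w + ENNReal.ofReal ε := by
  classical
  set P : Set (V × V) := {p | G.Adj p.1 p.2 ∧ (p.1 ∈ S ∨ p.2 ∈ S)} with hP
  have hPfin : P.Finite := by
    have h1 : (⋃ v ∈ S, (fun y => (v, y)) '' G.neighborSet v).Finite :=
      hS.biUnion fun v _ => (hG v).image _
    have h2 : (⋃ v ∈ S, (fun y => (y, v)) '' G.neighborSet v).Finite :=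
      hS.biUnion fun v _ => (hG v).image _
    refine (h1.union h2).subset ?_
    rintro ⟨x, y⟩ ⟨h, hx | hy⟩
    · left
      simp only [Set.mem_iUnion]
      exact ⟨x, hx, y, h, rfl⟩
    · right
      simp only [Set.mem_iUnion]
      exact ⟨y, hy, x, h.symm, rfl⟩
  obtain ⟨M, hM⟩ := (hPfin.image (fun p => |w p.1 - w p.2|)).bddAbove
  have hM' : ∀ p ∈ P, |w p.1 - w p.2| ≤ max M 0 := fun p hp =>
    (hM ⟨p, hp, rfl⟩).trans (le_max_left _ _)
  set M' := max M 0 with hM'def
  have hM0 : 0 ≤ M' := le_max_right _ _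
  set N : ℝ := (hPfin.toFinset.card : ℝ) with hN
  have hN0 : 0 ≤ N := Nat.cast_nonneg _
  refine ⟨min 1 (ε / (4 * (N + 1) * (M' + 1))), lt_min one_pos (by positivity), ?_⟩
  intro w' h1 h2
  set δ := min 1 (ε / (4 * (N + 1) * (M' + 1))) with hδ
  have hδ0 : 0 < δ := lt_min one_pos (by positivity)
  have hδ1 : δ ≤ 1 := min_le_left _ _
  have hδ2 : N * (4 * δ * (M' + 1)) ≤ ε := by
    have h3 : δ ≤ ε / (4 * (N + 1) * (M' + 1)) := min_le_right _ _
    rw [le_div_iff₀ (by positivity)] at h3
    have h4 : 0 ≤ δ * (4 * (M' + 1)) := by positivity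
    nlinarith
  have hterm : ∀ p : V × V, (if G.Adj p.1 p.2 then ENNReal.ofReal ((w' p.1 - w' p.2) ^ 2) else 0) ≤
      (if G.Adj p.1 p.2 then ENNReal.ofReal ((w p.1 - w p.2) ^ 2) else 0) +
        (if p ∈ P then ENNReal.ofReal (4 * δ * (M' + 1)) else 0) := by
    intro p
    by_cases hadj : G.Adj p.1 p.2
    · rw [if_pos hadj, if_pos hadj]
      by_cases hp : p ∈ P
      · rw [if_pos hp, ← ENNReal.ofReal_add (sq_nonneg _) (by positivity)]
        apply ENNReal.ofReal_le_ofReal
        have a1 := hM' p hp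
        have a2 := h2 p.1
        have a3 := h2 p.2
        rw [abs_le] at a1 a2 a3
        set A := w p.1 - w p.2
        set b := (w' p.1 - w p.1) - (w' p.2 - w p.2) with hb
        have e1 : w' p.1 - w' p.2 = A + b := by
          show w' p.1 - w' p.2 = (w p.1 - w p.2) + ((w' p.1 - w p.1) - (w' p.2 - w p.2))
          ring
        have hb2 : |b| ≤ 2 * δ := by
          rw [abs_le]; constructor <;> linarith
        have hA2 : |A| ≤ M' := hM' p hp
        have hAb : A * b ≤ M' * (2 * δ) := by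
          calc A * b ≤ |A * b| := le_abs_self _
            _ = |A| * |b| := abs_mul _ _
            _ ≤ M' * (2 * δ) := mul_le_mul hA2 hb2 (abs_nonneg _) hM0
        have hbb : b ^ 2 ≤ (2 * δ) ^ 2 := by
          rw [← sq_abs b]
          exact pow_le_pow_left₀ (abs_nonneg _) hb2 2
        have hdd : δ ^ 2 ≤ δ := by nlinarith
        rw [e1]
        nlinarith
      · have hx : p.1 ∉ S := fun h => hp ⟨hadj, Or.inl h⟩
        have hy : p.2 ∉ S := fun h => hp ⟨hadj, Or.inr h⟩
        rw [if_neg hp, add_zero, h1 _ hx, h1 _ hy]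
    · rw [if_neg hadj, if_neg hadj]
      exact zero_le
  calc En G w' = ∑' p : V × V, (if G.Adj p.1 p.2 then
        ENNReal.ofReal ((w' p.1 - w' p.2) ^ 2) else 0) := by
        unfold En
        exact tsum_congr fun p => by congr
    _ ≤ ∑' p : V × V, ((if G.Adj p.1 p.2 then ENNReal.ofReal ((w p.1 - w p.2) ^ 2) else 0) +
        (if p ∈ P then ENNReal.ofReal (4 * δ * (M' + 1)) else 0)) := ENNReal.tsum_le_tsum hterm
    _ = En G w + ∑' p : V × V, (if p ∈ P then ENNReal.ofReal (4 * δ * (M' + 1)) else 0) := by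
        rw [ENNReal.tsum_add]
        congr 1
    _ ≤ En G w + ENNReal.ofReal ε := by
        gcongr
        rw [tsum_eq_sum (s := hPfin.toFinset)]
        · have : ∀ p ∈ hPfin.toFinset, (if p ∈ P then ENNReal.ofReal (4 * δ * (M' + 1)) else 0) =
              ENNReal.ofReal (4 * δ * (M' + 1)) := by
            intro p hp
            rw [if_pos (hPfin.mem_toFinset.1 hp)]
          rw [Finset.sum_congr rfl this, Finset.sum_const, nsmul_eq_mul,
            ← ENNReal.ofReal_natCast, ← ENNReal.ofReal_mul (Nat.cast_nonneg _)]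
          exact ENNReal.ofReal_le_ofReal hδ2
        · intro p hp
          rw [if_neg fun h => hp (hPfin.mem_toFinset.2 h)]

theorem Qn_eq {A : Set ℍ} (hA : LocFin A) (hG : LF (voronoiGraph A)) (f : ℍ → ℝ) :
    Qn (voronoiGraph A) (fun x => f x) =
      ⨅ l : List (ℚ × ℕ × ℕ × ℕ), En (voronoiGraph A) (fun x => f x + UU l x) := by
  classical
  refine le_antisymm (le_iInf fun l => ?_) (le_Qn fun w hw => ?_)
  · refine Qn_le_of_finite ((UU_fin hA l).subset ?_)
    intro v hv h0
    exact hv (by rw [h0, add_zero])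
  · set S : Set A := {v : A | w v ≠ f v} with hS
    choose k hk1 hk2 using fun v : A => isol hA (v : ℍ)
    refine ENNReal.le_of_forall_pos_le_add fun ε hε hfin => ?_
    obtain ⟨δ, hδ, hδ2⟩ := perturb hG hw w (ε := (ε : ℝ)) (by exact_mod_cast hε)
    choose q hq using fun v : A => exists_rat_near (w v - f v) hδ
    set l : List (ℚ × ℕ × ℕ × ℕ) := hw.toFinset.toList.map (fun v => (q v, k v)) with hl
    have hUU : ∀ x : A, UU l x = if x ∈ S then (q x : ℝ) else 0 := by
      intro x
      rw [UU, hl, List.map_map]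
      have e1 : ((fun q : ℚ × ℕ × ℕ × ℕ => (RB q.2).indicator (fun _ => (q.1 : ℝ)) (x : ℍ)) ∘
          fun v : A => (q v, k v)) = fun v : A => if x = v then (q v : ℝ) else 0 := by
        funext v
        simp only [Function.comp_apply]
        by_cases h : x = v
        · subst h
          rw [if_pos rfl, Set.indicator_of_mem (hk1 x)]
        · rw [if_neg h, Set.indicator_of_notMem]
          intro hmem
          exact h (Subtype.ext (hk2 v x x.2 hmem))
      rw [e1, Finset.sum_map_toList, Finset.sum_ite_eq]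
      simp only [Set.Finite.mem_toFinset]
    refine (iInf_le _ l).trans ?_
    have h3 := hδ2 (fun x => f x + UU l x) (fun v hv => ?_) (fun v => ?_)
    · rw [ENNReal.ofReal_coe_nnreal] at h3
      exact h3
    · rw [hUU v, if_neg hv, add_zero]
      by_contra h
      exact hv (fun h' => h h'.symm)
    · rw [hUU v]
      by_cases hv : v ∈ S
      · rw [if_pos hv]
        have := hq v
        rw [abs_sub_comm] at this
        calc |f v + (q v : ℝ) - w v| = |(q v : ℝ) - (w v - f v)| := by congr 1; ring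
          _ ≤ δ := this.le
      · rw [if_neg hv]
        have : w v = f v := by
          by_contra h; exact hv h
        rw [this]
        simpa using hδ.le

theorem mqn (h : S_MEN.{u}) : S_MQN.{u} := by
  intro α _ T hT hl hG F hF
  have e : (fun a => Qn (voronoiGraph (pts (T a))) (fun x => F a x)) =
      fun a => ⨅ l : List (ℚ × ℕ × ℕ × ℕ),
        En (voronoiGraph (pts (T a))) (fun x => F a x + UU l x) := by
    funext a
    exact Qn_eq (hl a) (hG a) (F a)
  rw [e]
  refine Measurable.iInf fun l => ?_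
  exact h T hT hl (fun a z => F a z + UU l z)
    (hF.add ((meas_UU l).comp measurable_snd))

end

end Pool.Agent.Y302.HM
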