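import Pool.Agent.Y302.HM.Conf

/-!
# Project HM: the zero-one law
-/

set_option autoImplicit false

open MeasureTheory UpperHalfPlane Filter Pool.Agent.Y979.HV Pool.Agent.Y979.HM
open scoped ENNReal Topology symmDiff

namespace Pool.Agent.Y302.HM

universe u

/-- the balls around `i` -/
def KB (n : ℕ) : Set ℍ := Metric.closedBall I (n : ℝ)

theorem KB_mono : Monotone KB := by
  intro n m h
  exact Metric.closedBall_subset_closedBall (by exact_mod_cast h)

theorem KB_univ : ⋃ n, KB n = Set.univ := by
  rw [Set.eq_univ_iff_forall]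
  intro z
  obtain ⟨n, hn⟩ := exists_nat_ge (dist z I)
  exact Set.mem_iUnion.2 ⟨n, Metric.mem_closedBall.2 hn⟩

theorem KB_meas (n : ℕ) : MeasurableSet (KB n) := Metric.isClosed_closedBall.measurableSet

/-- the local events -/
def Alg : Set (Set Conf) := {S | ∃ n : ℕ, MeasurableSet[cs (KB n)] S}

theorem alg : IsSetAlgebra Alg where
  empty_mem := ⟨0, @MeasurableSet.empty _ (cs (KB 0))⟩
  compl_mem := by
    rintro S ⟨n, h⟩
    exact ⟨n, h.compl⟩
  union_mem := by
    rintro S S' ⟨n, h⟩ ⟨n', h'⟩
    refine ⟨max n n', MeasurableSet.union ?_ ?_⟩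
    · exact cs_mono (KB_mono (le_max_left n n')) S h
    · exact cs_mono (KB_mono (le_max_right n n')) S' h'

theorem gen_alg : (cs Set.univ) = MeasurableSpace.generateFrom Alg := by
  refine le_antisymm ?_ ?_
  · refine iSup₂_le fun B hB => ?_
    rw [← measurable_iff_comap_le]
    refine @measurable_enat Conf (MeasurableSpace.generateFrom Alg) _ fun k => ?_
    have : {A : Conf | (k : ℕ∞) ≤ (pts A ∩ B).encard} =
        ⋃ n, {A : Conf | (k : ℕ∞) ≤ (pts A ∩ (B ∩ KB n)).encard} := by
      ext A
      rw [Set.mem_iUnion]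
      exact le_encard_iff KB_mono KB_univ k
    rw [this]
    refine MeasurableSet.iUnion fun n => ?_
    refine MeasurableSpace.measurableSet_generateFrom ⟨n, ?_⟩
    have hm := meas_count (Z := KB n) (hB.1.inter (KB_meas n)) Set.inter_subset_right
    exact hm (MeasurableSet.of_discrete (s := {x : ℕ∞ | (k : ℕ∞) ≤ x}))
  · refine MeasurableSpace.generateFrom_le ?_
    rintro S ⟨n, h⟩
    exact cs_mono (Set.subset_univ _) S h

theorem zo (hind : S_IND.{u}) (hlaw : S_LAW.{u}) (hmob : S_MOB) : S_ZO.{u} := by
  intro Ω _ P _ lam Q hQ D hD hinv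
  -- the dilation
  obtain ⟨e, heI, hemp, hez⟩ := hmob 2 0 0 1 (by norm_num)
  have hde : (dil2 : ℍ → ℍ) = e := by
    funext z
    apply UpperHalfPlane.ext
    rw [hez z]
    show (2 * (z : ℂ)) = _
    push_cast
    ring
  have hinj : Function.Injective dil2 := by rw [hde]; exact e.injective
  have hdm : Measurable dil2 := by rw [hde]; exact e.measurable
  have hvol : ∀ B : Set ℍ, MeasurableSet B → volume (dil2 ⁻¹' B) = volume B := by
    intro B hB
    rw [hde]
    exact hemp.measure_preimage hB.nullMeasurableSet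
  -- the law
  set T : Ω → Conf := fun ω => mk (Q ω) with hT
  have hTm : Measurable T := by
    refine meas_to (Z := Set.univ) T fun B hB _ => ?_
    exact hQ.measurable_count B hB
  set Phi : Conf → Conf := fun A => mk (dil2 '' pts A) with hPhi
  have hPm : Measurable Phi := by
    have := meas_image hinj hdm (Z := Set.univ)
    rw [Set.preimage_univ] at this
    exact this
  have hQ' : IsPoissonProcess P lam (fun ω => dil2 '' Q ω) := by
    refine ⟨fun B hB => ?_, fun B hB hv k => ?_, fun m B hB hd => ?_⟩
    · simp_rw [image_inter_encard hinj]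
      exact hQ.measurable_count _ (hdm hB)
    · simp_rw [image_inter_encard hinj]
      have := hQ.law_count (dil2 ⁻¹' B) (hdm hB) (by rwa [hvol B hB]) k
      rwa [hvol B hB] at this
    · simp_rw [image_inter_encard hinj]
      exact hQ.indep_count m (fun i => dil2 ⁻¹' B i) (fun i => hdm (hB i))
        (fun i j hij => (hd hij).preimage dil2)
  set μ : Measure Conf := P.map T with hμ
  have hprob : IsProbabilityMeasure μ := Measure.isProbabilityMeasure_map hTm.aemeasurable
  have hpres : MeasurePreserving Phi μ μ := by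
    refine ⟨hPm, ?_⟩
    rw [hμ, Measure.map_map hPm hTm]
    exact (hlaw P lam Q _ hQ hQ').symm
  have hit : ∀ m : ℕ, Phi^[m] = fun A => mk ((dil2^[m]) '' pts A) := by
    intro m
    induction m with
    | zero =>
      funext A
      show A = ((dil2^[0]) '' pts A : Set ℍ)
      rw [Function.iterate_zero]
      exact (Set.image_id (pts A)).symm
    | succ m ih =>
      funext A
      rw [Function.iterate_succ', Function.comp_apply, ih, Function.iterate_succ', hPhi]
      exact (Set.image_comp dil2 (dil2^[m]) (pts A)).symm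
  have hDD : ∀ m : ℕ, Phi^[m] ⁻¹' D =ᵐ[μ] D := by
    have h1 : Phi ⁻¹' D =ᵐ[μ] D := by
      have : ∀ᵐ A ∂μ, (A ∈ D ↔ Phi A ∈ D) := by
        rw [hμ, ae_map_iff hTm.aemeasurable]
        · exact hinv
        · have : {A : Conf | (A ∈ D ↔ Phi A ∈ D)} = (D ∩ Phi ⁻¹' D) ∪ (Dᶜ ∩ (Phi ⁻¹' D)ᶜ) := by
            ext A
            simp only [Set.mem_ofPred_eq, Set.mem_union, Set.mem_inter_iff, Set.mem_preimage,
              Set.mem_compl_iff]
            tauto
          rw [this]
          exact (hD.inter (hPm hD)).union (hD.compl.inter (hPm hD).compl)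
      filter_upwards [this] with A hA
      exact propext hA.symm
    intro m
    induction m with
    | zero => exact Filter.EventuallyEq.refl _ _
    | succ m ih =>
      rw [Function.iterate_succ, Set.preimage_comp]
      exact (hpres.quasiMeasurePreserving.preimage_ae_eq ih).trans h1
  have hdense := Measure.MeasureDense.of_generateFrom_isSetAlgebra_finite (μ := μ) alg gen_alg
  have hreal : ∀ A B : Set Conf, |μ.real A - μ.real B| ≤ μ.real (A ∆ B) := by
    intro A B
    have h1 : μ.real A ≤ μ.real B + μ.real (A ∆ B) := by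
      refine le_trans (measureReal_mono ?_) (measureReal_union_le B (A ∆ B))
      intro x hx
      by_cases hxB : x ∈ B
      · exact Or.inl hxB
      · exact Or.inr (Or.inl ⟨hx, hxB⟩)
    have h2 : μ.real B ≤ μ.real A + μ.real (A ∆ B) := by
      refine le_trans (measureReal_mono ?_) (measureReal_union_le A (A ∆ B))
      intro x hx
      by_cases hxA : x ∈ A
      · exact Or.inl hxA
      · exact Or.inr (Or.inr ⟨hx, hxA⟩)
    rw [abs_le]
    constructor <;> linarith
  set a : ℝ := μ.real D with ha
  have hmain : ∀ ε : ℝ, 0 < ε → |a - a ^ 2| ≤ 4 * ε := by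
    intro ε hε
    obtain ⟨S, ⟨n, hS⟩, hSD⟩ := hdense.approx D hD (measure_ne_top μ D) ε hε
    have hSm : MeasurableSet S := cs_mono (Set.subset_univ _) S hS
    have hSD' : μ.real (D ∆ S) ≤ ε := by
      rw [Measure.real]
      exact ENNReal.toReal_le_of_le_ofReal hε.le hSD.le
    -- far away
    set m : ℕ := 4 * n + 1 with hm
    have him : ∀ (m : ℕ) (z : ℍ), (dil2^[m] z).im = 2 ^ m * z.im := by
      intro m
      induction m with
      | zero => intro z; simp
      | succ m ih =>
        intro z
        rw [Function.iterate_succ', Function.comp_apply]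
        have : (dil2 (dil2^[m] z)).im = 2 * (dil2^[m] z).im := by
          show (2 * ((dil2^[m] z : ℍ) : ℂ)).im = _
          simp
        rw [this, ih, pow_succ]
        ring
    have hdisj : Disjoint (KB n) (dil2^[m] ⁻¹' KB n) := by
      rw [Set.disjoint_left]
      intro z hz1 hz2
      have h1 : dist z I ≤ n := hz1
      have h2 : dist (dil2^[m] z) I ≤ n := hz2
      have h3 := (UpperHalfPlane.dist_log_im_le z I).trans h1
      have h4 := (UpperHalfPlane.dist_log_im_le (dil2^[m] z) I).trans h2
      rw [UpperHalfPlane.I_im, Real.log_one, Real.dist_eq, sub_zero] at h3 h4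
      rw [him m z, Real.log_mul (by positivity) z.im_ne_zero, Real.log_pow] at h4
      have h5 := (abs_le.1 h3).1
      have h6 := (abs_le.1 h4).2
      have h7 := Real.log_two_gt_d9
      have h8 : (m : ℝ) = 4 * n + 1 := by rw [hm]; push_cast; ring
      rw [h8] at h6
      have h9 : (0 : ℝ) ≤ n := Nat.cast_nonneg n
      nlinarith
    have hmi : Function.Injective (dil2^[m]) := hinj.iterate m
    have hmm : Measurable (dil2^[m]) := hdm.iterate m
    set S' : Set Conf := Phi^[m] ⁻¹' S with hS'
    have hS'm : MeasurableSet[cs (dil2^[m] ⁻¹' KB n)] S' := by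
      rw [hS', hit m]
      exact meas_image hmi hmm hS
    have hi := hind P lam Q hQ (KB n) (dil2^[m] ⁻¹' KB n) (KB_meas n) (hmm (KB_meas n)) hdisj
    rw [ProbabilityTheory.Indep_iff] at hi
    have hi2 := hi (T ⁻¹' S) (T ⁻¹' S') ⟨S, hS, rfl⟩ ⟨S', hS'm, rfl⟩
    have hS'M : MeasurableSet S' := cs_mono (Set.subset_univ _) S' hS'm
    have e1 : μ (S ∩ S') = μ S * μ S' := by
      rw [hμ, Measure.map_apply hTm hSm, Measure.map_apply hTm hS'M,
        Measure.map_apply hTm (hSm.inter hS'M), Set.preimage_inter]
      exact hi2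
    have e2 : μ S' = μ S := (hpres.iterate m).measure_preimage hSm.nullMeasurableSet
    have e3 : μ.real (S ∩ S') = μ.real S ^ 2 := by
      rw [Measure.real, e1, e2, ENNReal.toReal_mul, Measure.real, sq]
    -- comparison
    set D' : Set Conf := Phi^[m] ⁻¹' D with hD'
    have e4 : μ.real (D ∩ D') = a := by
      rw [ha]
      apply measureReal_congr
      have := (hDD m)
      filter_upwards [this] with x hx
      have hx' : (x ∈ D') = (x ∈ D) := hx
      apply propext
      show x ∈ D ∧ x ∈ D' ↔ x ∈ D
      rw [hx', and_self]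
    have e5 : μ.real (D' ∆ S') ≤ ε := by
      have : D' ∆ S' = Phi^[m] ⁻¹' (D ∆ S) := rfl
      rw [this, Measure.real, (hpres.iterate m).measure_preimage
        (hD.symmDiff hSm).nullMeasurableSet]
      exact hSD'
    have e6 : μ.real ((D ∩ D') ∆ (S ∩ S')) ≤ 2 * ε := by
      calc μ.real ((D ∩ D') ∆ (S ∩ S')) ≤ μ.real ((D ∆ S) ∪ (D' ∆ S')) := by
            refine measureReal_mono ?_ (measure_ne_top μ _)
            rintro x (⟨⟨h1, h2⟩, h3⟩ | ⟨⟨h1, h2⟩, h3⟩)
            · by_cases hx : x ∈ S
              · exact Or.inr (Or.inl ⟨h2, fun h4 => h3 ⟨hx, h4⟩⟩)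
              · exact Or.inl (Or.inl ⟨h1, hx⟩)
            · by_cases hx : x ∈ D
              · exact Or.inr (Or.inr ⟨h2, fun h4 => h3 ⟨hx, h4⟩⟩)
              · exact Or.inl (Or.inr ⟨h1, hx⟩)
        _ ≤ μ.real (D ∆ S) + μ.real (D' ∆ S') := measureReal_union_le _ _
        _ ≤ 2 * ε := by linarith
    have e7 := hreal (D ∩ D') (S ∩ S')
    have e8 := hreal D S
    rw [e4, e3] at e7
    have hs0 : 0 ≤ μ.real S := measureReal_nonneg
    have hs1 : μ.real S ≤ 1 := measureReal_le_one
    have ha0 : 0 ≤ a := measureReal_nonneg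
    have ha1 : a ≤ 1 := measureReal_le_one
    rw [abs_le] at e7 e8 ⊢
    constructor <;> nlinarith
  have hfin : a = a ^ 2 := by
    by_contra hne
    have hpos : 0 < |a - a ^ 2| := abs_pos.2 (sub_ne_zero.2 hne)
    have := hmain (|a - a ^ 2| / 8) (by positivity)
    linarith
  have hPD : P {ω | mk (Q ω) ∈ D} = μ D := by
    rw [hμ, Measure.map_apply hTm hD]
    rfl
  rw [hPD]
  have ha' : a = (μ D).toReal := rfl
  have h01 : a = 0 ∨ a = 1 := by
    have : a * (a - 1) = 0 := by nlinarith
    rcases mul_eq_zero.1 this with h | h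
    · exact Or.inl h
    · exact Or.inr (by linarith)
  rcases h01 with h | h
  · left
    rw [ha', ENNReal.toReal_eq_zero_iff] at h
    rcases h with h | h
    · exact h
    · exact absurd h (measure_ne_top μ D)
  · right
    rw [ha', ENNReal.toReal_eq_one_iff] at h
    exact h

end Pool.Agent.Y302.HM
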